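import Mathlib

namespace Pool.Agent.Results.MP_1096cc_an.Plane

open Complex Metric Filter Finset InnerProductSpace
open scoped Topology

/-- `‖u‖_s`, the supremum of `|u|` over the open disc of radius `s` -/
noncomputable def supn (u : ℂ → ℂ) (s : ℝ) : ℝ := sSup ((fun z => ‖u z‖) '' ball 0 s)

noncomputable def co (F : ℂ → ℂ) (k : ℕ) : ℂ := (k.factorial : ℂ)⁻¹ * iteratedDeriv k F 0

lemma coef_sphere (F : ℂ → ℂ) (t M : ℝ) (ht : 0 < t) (hF : DifferentiableOn ℂ F (closedBall 0 t))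
    (hM : ∀ z, ‖z‖ = t → |(F z).re| ≤ M) (k : ℕ) : ‖co F (k + 1)‖ * t ^ (k + 1) ≤ 2 * M := by
  have A := hF.circleIntegral_one_div_sub_center_pow_smul ht (k + 1)
  have B : ∮ z in C(0, t), z ^ k * F z = 0 :=
    (((differentiableOn_id.pow k).mul hF).mono
      closure_ball_subset_closedBall).diffContOnCl.circleIntegral_eq_zero ht.le
  have cF : Continuous fun θ => F (circleMap 0 t θ) :=
    hF.continuousOn.comp_continuous (continuous_circleMap 0 t) (circleMap_mem_closedBall 0 ht.le)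
  have nz : ∀ θ, circleMap 0 t θ ≠ 0 := fun θ => circleMap_ne_center ht.ne'
  have nn : ∀ θ, ‖circleMap 0 t θ‖ = t := fun θ => by simp [abs_of_pos ht]
  have cc := continuous_circleMap 0 t
  simp only [circleIntegral, deriv_circleMap, sub_zero, smul_eq_mul] at A B
  have A' : ∫ θ in (0 : ℝ)..2 * Real.pi, (circleMap 0 t θ ^ (k + 1))⁻¹ * F (circleMap 0 t θ) =
      2 * Real.pi * co F (k + 1) := by
    apply mul_left_cancel₀ I_ne_zero
    rw [← intervalIntegral.integral_const_mul]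
    unfold co
    convert A using 1
    · congr 1; ext θ; have := nz θ; field_simp; ring
    · field_simp
  have B' : ∫ θ in (0 : ℝ)..2 * Real.pi,
      (circleMap 0 t θ ^ (k + 1))⁻¹ * (starRingEnd ℂ) (F (circleMap 0 t θ)) = 0 := by
    have h1 : ∫ θ in (0 : ℝ)..2 * Real.pi, circleMap 0 t θ ^ (k + 1) * F (circleMap 0 t θ) = 0 := by
      apply mul_left_cancel₀ I_ne_zero
      rw [← intervalIntegral.integral_const_mul, mul_zero]
      refine Eq.trans ?_ B
      congr 1; ext θ; ring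
    have h2 : ∫ θ in (0 : ℝ)..2 * Real.pi,
        (starRingEnd ℂ) (circleMap 0 t θ ^ (k + 1) * F (circleMap 0 t θ)) = 0 := by
      rw [intervalIntegral.integral_of_le (by positivity), integral_conj,
        ← intervalIntegral.integral_of_le (by positivity), h1, map_zero]
    have t0 : ((t : ℂ) ^ 2) ^ (k + 1) ≠ 0 := by
      have : (t : ℂ) ≠ 0 := by exact_mod_cast ht.ne'
      positivity
    apply mul_left_cancel₀ t0
    rw [← intervalIntegral.integral_const_mul, mul_zero]
    refine Eq.trans ?_ h2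
    congr 1; ext θ
    have e : (t : ℂ) ^ 2 = circleMap 0 t θ * (starRingEnd ℂ) (circleMap 0 t θ) := by
      rw [mul_conj', nn]
    have := nz θ
    rw [e, map_mul, map_pow, mul_pow]; field_simp
  have S : ∫ θ in (0 : ℝ)..2 * Real.pi,
      (circleMap 0 t θ ^ (k + 1))⁻¹ * ((2 * (F (circleMap 0 t θ)).re : ℝ) : ℂ) =
      2 * Real.pi * co F (k + 1) := by
    have := congrArg₂ (· + ·) A' B'
    simp only [add_zero] at this
    rw [← this, ← intervalIntegral.integral_add]
    · congr 1; ext θ; rw [← mul_add, add_conj]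
    · exact Continuous.intervalIntegrable
        (((cc.pow _).inv₀ fun θ => pow_ne_zero _ (nz θ)).mul cF) _ _
    · exact Continuous.intervalIntegrable
        (((cc.pow _).inv₀ fun θ => pow_ne_zero _ (nz θ)).mul (continuous_conj.comp cF)) _ _
  have N := intervalIntegral.norm_integral_le_of_norm_le_const (a := 0) (b := 2 * Real.pi)
    (C := (t ^ (k + 1))⁻¹ * (2 * M)) (f := fun θ =>
      (circleMap 0 t θ ^ (k + 1))⁻¹ * ((2 * (F (circleMap 0 t θ)).re : ℝ) : ℂ)) (fun θ _ => by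
      rw [norm_mul, norm_inv, norm_pow, nn, norm_real, Real.norm_eq_abs, abs_mul, abs_two]
      gcongr
      exact hM _ (nn θ))
  rw [S, sub_zero, abs_of_pos Real.two_pi_pos, norm_mul, norm_mul, norm_real,
    Real.norm_of_nonneg Real.pi_pos.le] at N
  simp only [Complex.norm_ofNat] at N
  have hp := Real.pi_pos
  have : ‖co F (k + 1)‖ ≤ (t ^ (k + 1))⁻¹ * (2 * M) := by nlinarith
  rwa [inv_mul_eq_div, le_div_iff₀ (by positivity)] at this

lemma coef_ball (F : ℂ → ℂ) (s M : ℝ) (hs : 0 < s) (hF : DifferentiableOn ℂ F (ball 0 s))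
    (hM : ∀ z, ‖z‖ < s → |(F z).re| ≤ M) (k : ℕ) : ‖co F (k + 1)‖ * s ^ (k + 1) ≤ 2 * M := by
  have : Tendsto (fun t : ℝ => ‖co F (k + 1)‖ * t ^ (k + 1)) (𝓝[<] s)
      (𝓝 (‖co F (k + 1)‖ * s ^ (k + 1))) :=
    (Continuous.tendsto (by fun_prop) s).mono_left nhdsWithin_le_nhds
  refine le_of_tendsto this ?_
  filter_upwards [Ioo_mem_nhdsLT hs] with t ht
  exact coef_sphere F t M ht.1 (hF.mono (closedBall_subset_ball ht.2))
    (fun z hz => hM z (hz ▸ ht.2)) k

lemma real_bound (ρ r : ℝ) (h0 : 0 < ρ) (h1 : ρ < r) (h2 : r < 1) (u : ℂ → ℝ)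
    (hu : HarmonicOnNhd u (ball 0 1)) (hb : ∀ z, ‖z‖ < 1 → |u z| ≤ 1) (n : ℕ)
    (he : ∀ z, ‖z‖ < ρ → |u z| ≤ ρ ^ n) (z : ℂ) (hz : ‖z‖ < r) :
    |u z| ≤ 2 * (r / (r - ρ) + 1 / (1 - r)) * r ^ n := by
  obtain ⟨F, hF, hFu⟩ := hu.exists_analyticOnNhd_ball_re_eq
  have hr : 0 < r := h0.trans h1
  have dF : DifferentiableOn ℂ F (ball 0 1) := hF.differentiableOn
  have eq : ∀ w, ‖w‖ < 1 → (F w).re = u w := fun w hw => hFu (by simpa using hw)
  have c1 := coef_ball F 1 1 one_pos dF (fun w hw => by rw [eq w hw]; exact hb w hw)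
  have c2 := coef_ball F ρ (ρ ^ n) h0 (dF.mono (ball_subset_ball (by linarith)))
    (fun w hw => by rw [eq w (by linarith)]; exact he w hw)
  have hs := hasSum_re (hasSum_taylorSeries_on_ball dF (z := z) (by simp; linarith))
  rw [eq z (by linarith)] at hs
  set a : ℕ → ℝ := fun k => (((k.factorial : ℂ))⁻¹ • (z - 0) ^ k • iteratedDeriv k F 0).re
  have ak : ∀ k, |a k| ≤ ‖co F k‖ * r ^ k := fun k => by
    refine (abs_re_le_norm _).trans ?_
    rw [sub_zero, smul_eq_mul, smul_eq_mul, mul_left_comm, norm_mul, norm_pow, mul_comm]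
    unfold co; gcongr
  have b1 : ∀ k, |a (k + (n + 1))| ≤ 2 * r ^ n * r ^ k := fun k => by
    refine (ak _).trans ?_
    have := c1 (k + n)
    rw [one_pow, mul_one] at this
    rw [← add_assoc]
    calc ‖co F (k + n + 1)‖ * r ^ (k + n + 1) ≤ 2 * 1 * r ^ (k + n) := by
          apply mul_le_mul this (pow_le_pow_of_le_one hr.le h2.le (by omega)) (by positivity)
            (by norm_num)
      _ = _ := by ring
  have b2 : ∀ k, k ≤ n → |a k| ≤ 2 * r ^ n * (ρ / r) ^ (n - k) := by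
    intro k hk
    obtain ⟨j, rfl⟩ := Nat.exists_eq_add_of_le hk
    rw [Nat.add_sub_cancel_left]
    rcases k with _ | k
    · have : a 0 = u 0 := by simp [a, eq 0 (by simp)]
      rw [this]
      refine (he 0 (by simpa using h0)).trans ?_
      rw [zero_add, mul_assoc, ← mul_pow, mul_div_cancel₀ _ hr.ne']
      have : 0 < ρ ^ j := by positivity
      linarith
    · refine (ak _).trans ?_
      have := c2 k
      rw [← le_div_iff₀ (by positivity)] at this
      calc ‖co F (k + 1)‖ * r ^ (k + 1) ≤ 2 * ρ ^ (k + 1 + j) / ρ ^ (k + 1) * r ^ (k + 1) := by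
            gcongr
        _ = _ := by rw [div_pow]; field_simp; ring
  rw [← hs.tsum_eq, ← hs.summable.sum_add_tsum_nat_add (n + 1)]
  have q1 : ρ / r < 1 := (div_lt_one hr).2 h1
  have s1 : |∑ k ∈ range (n + 1), a k| ≤ 2 * r ^ n * (r / (r - ρ)) := by
    refine (abs_sum_le_sum_abs _ _).trans ((sum_le_sum fun k hk =>
      b2 k (Nat.lt_succ_iff.1 (mem_range.1 hk))).trans ?_)
    rw [← mul_sum]
    gcongr
    have := sum_range_reflect (fun k => (ρ / r) ^ k) (n + 1)
    simp only [Nat.add_sub_cancel] at this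
    rw [this]
    have hg := hasSum_geometric_of_lt_one (by positivity) q1
    refine (sum_le_hasSum _ (fun _ _ => by positivity) hg).trans (le_of_eq ?_)
    have : r - ρ ≠ 0 := by linarith
    field_simp
  have s2 : |∑' k, a (k + (n + 1))| ≤ 2 * r ^ n * (1 / (1 - r)) := by
    have hg := (hasSum_geometric_of_lt_one hr.le h2).mul_left (2 * r ^ n)
    rw [one_div]
    exact tsum_of_norm_bounded (f := fun k => a (k + (n + 1))) hg b1
  refine (abs_add_le _ _).trans ?_
  nlinarith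

theorem result (ρ r : ℝ) (h0 : 0 < ρ) (h1 : ρ < r) (h2 : r < 1) :
    ∃ K : ℝ, ∀ u : ℂ → ℂ, HarmonicOnNhd u (ball 0 1) → supn u 1 = 1 →
      supn u r ≤ K * supn u ρ ^ (Real.log r / Real.log ρ) := by
  have hr : 0 < r := h0.trans h1
  set K0 := 2 * (r / (r - ρ) + 1 / (1 - r))
  have K0p : 0 < K0 := by
    have : 0 < r - ρ := by linarith
    have : 0 < 1 - r := by linarith
    positivity
  refine ⟨2 * K0 / r, fun u hu h => ?_⟩
  have bd1 : BddAbove ((fun z => ‖u z‖) '' ball 0 1) := by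
    by_contra hn
    unfold supn at h
    rw [Real.sSup_of_not_bddAbove hn] at h
    norm_num at h
  have hb : ∀ z, ‖z‖ < 1 → ‖u z‖ ≤ 1 := fun z hz =>
    h ▸ le_csSup bd1 ⟨z, by simpa using hz, rfl⟩
  have bdρ : BddAbove ((fun z => ‖u z‖) '' ball 0 ρ) :=
    bd1.mono (Set.image_mono (ball_subset_ball (by linarith)))
  set ε := supn u ρ
  have he : ∀ z, ‖z‖ < ρ → ‖u z‖ ≤ ε := fun z hz => le_csSup bdρ ⟨z, by simpa using hz, rfl⟩
  have e0 : 0 ≤ ε := (norm_nonneg _).trans (he 0 (by simpa using h0))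
  have e1 : ε ≤ 1 := csSup_le ⟨_, 0, by simpa using h0, rfl⟩ (by
    rintro _ ⟨z, hz, rfl⟩
    exact hb z (by simp at hz; linarith))
  have key : ∀ n : ℕ, ε ≤ ρ ^ n → ∀ z, ‖z‖ < r → ‖u z‖ ≤ 2 * K0 * r ^ n := by
    intro n hn z hz
    have a := real_bound ρ r h0 h1 h2 _ (hu.comp_CLM reCLM)
      (fun z hz => (abs_re_le_norm _).trans (hb z hz)) n
      (fun z hz => (abs_re_le_norm _).trans ((he z hz).trans hn)) z hz
    have b := real_bound ρ r h0 h1 h2 _ (hu.comp_CLM imCLM)
      (fun z hz => (abs_im_le_norm _).trans (hb z hz)) n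
      (fun z hz => (abs_im_le_norm _).trans ((he z hz).trans hn)) z hz
    have := norm_le_abs_re_add_abs_im (u z)
    simp only [Function.comp, reCLM_apply, imCLM_apply] at a b
    linarith
  have lρ : Real.log ρ < 0 := Real.log_neg h0 (by linarith)
  have β0 : 0 < Real.log r / Real.log ρ := div_pos_of_neg_of_neg (Real.log_neg hr h2) lρ
  refine csSup_le ⟨_, 0, by simpa using hr, rfl⟩ ?_
  rintro _ ⟨z, hz, rfl⟩
  simp only [mem_ball, dist_zero_right] at hz
  rcases e0.eq_or_lt with e | e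
  · rw [← e, Real.zero_rpow β0.ne', mul_zero]
    have : Tendsto (fun n : ℕ => 2 * K0 * r ^ n) atTop (𝓝 (2 * K0 * 0)) :=
      (tendsto_pow_atTop_nhds_zero_of_lt_one hr.le h2).const_mul _
    rw [mul_zero] at this
    exact ge_of_tendsto' this fun n => key n (by rw [← e]; positivity) z hz
  · obtain ⟨n, hn1, hn2⟩ := exists_nat_pow_near_of_lt_one e e1 h0 (by linarith : ρ < 1)
    refine (key n hn2 z hz).trans ?_
    have : r ^ (n + 1) ≤ ε ^ (Real.log r / Real.log ρ) := by
      have h3 : ρ ^ (Real.log r / Real.log ρ) = r := by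
        rw [Real.rpow_def_of_pos h0, mul_div_cancel₀ _ lρ.ne, Real.exp_log hr]
      calc r ^ (n + 1) = (ρ ^ (n + 1)) ^ (Real.log r / Real.log ρ) := by
            rw [← Real.rpow_natCast ρ, ← Real.rpow_mul h0.le, mul_comm, Real.rpow_mul h0.le, h3,
              Real.rpow_natCast]
        _ ≤ _ := Real.rpow_le_rpow (by positivity) hn1.le β0.le
    calc 2 * K0 * r ^ n = 2 * K0 / r * r ^ (n + 1) := by field_simp; ring
      _ ≤ _ := by gcongr

end Pool.Agent.Results.MP_1096cc_an.Plane
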